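import Pool.Agent.helper64.OT.SpecG

set_option autoImplicit false

namespace Pool.Agent.OG

open Finset Pool.Agent.OT Pool.Agent.SPI Pool.Agent.helper85.PG
open scoped Pointwise

theorem DSY_add {p : ℕ} [NeZero p] (u v : ZMod p) : ps (u + v) = ps u * ps v := by
  unfold ps
  exact AddChar.map_add_eq_mul _ u v

theorem DSY_zero {p : ℕ} [NeZero p] : ps (0 : ZMod p) = 1 := by
  unfold ps
  exact AddChar.map_zero_eq_one _

theorem DSY_norm {p : ℕ} [NeZero p] (t : ZMod p) : ‖ps t‖ = 1 := by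
  unfold ps
  exact AddChar.norm_apply _ t

theorem DSY_tri {p : ℕ} [NeZero p] (u v : ZMod p) :
    ‖ps (u + v) - 1‖ ≤ ‖ps u - 1‖ + ‖ps v - 1‖ := by
  have h : ps (u + v) - 1 = (ps u - 1) + ps u * (ps v - 1) := by
    rw [DSY_add]; ring
  rw [h]
  refine (norm_add_le _ _).trans ?_
  rw [norm_mul, DSY_norm, one_mul]

theorem DSY_neg {p : ℕ} [NeZero p] (u : ZMod p) : ‖ps (-u) - 1‖ = ‖ps u - 1‖ := by
  have h0 : ps (-u) * ps u = 1 := by
    rw [← DSY_add, neg_add_cancel, DSY_zero]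
  have h : ps (-u) - 1 = -(ps (-u) * (ps u - 1)) := by
    linear_combination h0
  rw [h, norm_neg, norm_mul, DSY_norm, one_mul]

theorem DSY_mem {p : ℕ} [NeZero p] (P : ℝ → Finset (ZMod p)) (κ : ℝ) (s : ZMod p) :
    s ∈ Sk P κ ↔ ∀ y ∈ P 1, ‖ps (s * y) - 1‖ ≤ κ := by
  classical
  unfold Sk
  rw [mem_filter]
  exact ⟨fun h => h.2, fun h => ⟨mem_univ _, h⟩⟩

theorem DSY_sub {p : ℕ} [NeZero p] (P : ℝ → Finset (ZMod p)) (κ κ' : ℝ) :
    Sk P κ - Sk P κ' ⊆ Sk P (κ + κ') := by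
  classical
  intro r hr
  obtain ⟨s, hs, s', hs', rfl⟩ := Finset.mem_sub.1 hr
  rw [DSY_mem] at hs hs' ⊢
  intro y hy
  have e : (s - s') * y = s * y + -(s' * y) := by ring
  rw [e]
  refine (DSY_tri _ _).trans ?_
  rw [DSY_neg]
  exact add_le_add (hs y hy) (hs' y hy)

theorem DSY_addS {p : ℕ} [NeZero p] (P : ℝ → Finset (ZMod p)) (κ κ' : ℝ) :
    Sk P κ + Sk P κ' ⊆ Sk P (κ + κ') := by
  classical
  intro r hr
  obtain ⟨s, hs, s', hs', rfl⟩ := Finset.mem_add.1 hr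
  rw [DSY_mem] at hs hs' ⊢
  intro y hy
  rw [add_mul]
  exact (DSY_tri _ _).trans (add_le_add (hs y hy) (hs' y hy))

theorem DSY_sum {p : ℕ} [NeZero p] (V : Finset (ZMod p)) (f : ZMod p → ℂ) (κ : ℝ)
    (h : ∀ v ∈ V, ‖f v - 1‖ ≤ κ) : (V.card : ℝ) * (1 - κ) ≤ ‖∑ v ∈ V, f v‖ := by
  have h1 : ‖∑ v ∈ V, (f v - 1)‖ ≤ V.card * κ := by
    refine (norm_sum_le _ _).trans ?_
    refine (sum_le_sum h).trans ?_
    rw [sum_const, nsmul_eq_mul]
  have h2 : (V.card : ℂ) = ∑ v ∈ V, f v - ∑ v ∈ V, (f v - 1) := by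
    rw [← sum_sub_distrib]
    simp
  have h3 : (V.card : ℝ) ≤ ‖∑ v ∈ V, f v‖ + ‖∑ v ∈ V, (f v - 1)‖ := by
    have h4 : ‖(V.card : ℂ)‖ = (V.card : ℝ) := Complex.norm_natCast _
    rw [← h4, h2]
    exact norm_sub_le _ _
  nlinarith

theorem DSY (hDUA : DUA_stmt) (hSUP : SUP_stmt) (hPKC : PKC_stmt) : DSY_stmt := by
  classical
  intro d
  obtain ⟨c, hc, hD⟩ := hDUA d (1 / 16) (by norm_num)
  refine ⟨max 1 (4 * 5 ^ d / c), le_max_left _ _, ?_⟩
  intro p _ hp2 P hP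
  set D : ℝ := max 1 (4 * 5 ^ d / c) with hDdef
  have hD1 : (1 : ℝ) ≤ D := le_max_left _ _
  have hD2 : 4 * 5 ^ d / c ≤ D := le_max_right _ _
  have h5 : (1 : ℝ) ≤ 5 ^ d := one_le_pow₀ (by norm_num)
  have hDc : 4 * 5 ^ d ≤ D * c := by
    rw [div_le_iff₀ hc] at hD2
    exact hD2
  have hp0 : (0 : ℝ) < p := by exact_mod_cast (Fact.out : p.Prime).pos
  set S := Sk P (1 / 16) with hS
  have h0S : (0 : ZMod p) ∈ S := by
    rw [hS, DSY_mem]
    intro y _
    rw [zero_mul, DSY_zero, sub_self, norm_zero]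
    norm_num
  have hSne : S.Nonempty := ⟨0, h0S⟩
  have hScard : (0 : ℝ) < S.card := by exact_mod_cast hSne.card_pos
  have hP1 : (0 : ℝ) < (P 1).card := by exact_mod_cast hP.card_pos (by norm_num)
  have hcS : c * p ≤ ((P 1).card : ℝ) * S.card := hD p hp2 P hP
  have hsub : S - S ⊆ Sk P (1 / 8) := by
    have := DSY_sub P (1 / 16) (1 / 16)
    have e : (1 / 16 + 1 / 16 : ℝ) = 1 / 8 := by norm_num
    rwa [e] at this
  have hadd : (S - S) + (S - S) ⊆ Sk P (1 / 4) := by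
    have h1 := DSY_addS P (1 / 8) (1 / 8)
    have e : (1 / 8 + 1 / 8 : ℝ) = 1 / 4 := by norm_num
    rw [e] at h1
    exact (Finset.add_subset_add hsub hsub).trans h1
  have hbound : ∀ U : Finset (ZMod p), U ⊆ Sk P (1 / 4) → (U.card : ℝ) ≤ D * S.card := by
    intro U hU
    have h1 := hSUP p d P (1 / 4) hP (by norm_num)
    have h2 : (U.card : ℝ) ≤ (Sk P (1 / 4)).card := by exact_mod_cast card_le_card hU
    have h3 : ((P 1).card : ℝ) * U.card ≤ 4 * p := (mul_le_mul_of_nonneg_left h2 hP1.le).trans h1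
    have h4 : c * (((P 1).card : ℝ) * U.card) ≤ 4 * (((P 1).card : ℝ) * S.card) := by
      calc c * (((P 1).card : ℝ) * U.card) ≤ c * (4 * p) := mul_le_mul_of_nonneg_left h3 hc.le
        _ = 4 * (c * p) := by ring
        _ ≤ 4 * (((P 1).card : ℝ) * S.card) := by linarith
    have h5' : c * (U.card : ℝ) ≤ 4 * S.card := by
      have : ((P 1).card : ℝ) * (c * U.card) ≤ ((P 1).card : ℝ) * (4 * S.card) := by linarith
      exact le_of_mul_le_mul_left this hP1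
    have h6 : c * (U.card : ℝ) ≤ c * (D * S.card) := by
      have h7 : 4 * (S.card : ℝ) ≤ D * c * S.card := by
        refine mul_le_mul_of_nonneg_right ?_ hScard.le
        linarith
      linarith
    exact le_of_mul_le_mul_left h6 hc
  have h12 : (((P 1).card : ℕ) : ℝ) ≤ 5 ^ d * ((P (1 / 2)).card : ℝ) := by
    have h := (hPKC.2.2 p d P hP 1 (1 / 2) (by norm_num) (by norm_num)).1
    have e1 : (1 + 2 * 1 / (1 / 2) : ℝ) = 5 := by norm_num
    rwa [e1] at h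
  have hsub14 : S - S ⊆ Sk P (1 / 4) := by
    refine hsub.trans ?_
    intro s hs
    rw [DSY_mem] at hs ⊢
    intro y hy
    exact (hs y hy).trans (by norm_num)
  refine ⟨hSne, hbound _ hadd, hbound _ hsub14, ?_, ?_, ?_, ?_⟩
  · have h1 : c * p ≤ 5 ^ d * ((P (1 / 2)).card : ℝ) * S.card :=
      hcS.trans (mul_le_mul_of_nonneg_right h12 hScard.le)
    have h2 : (0 : ℝ) ≤ ((P (1 / 2)).card : ℝ) * S.card := by positivity
    have h3 : 4 * 5 ^ d * (((P (1 / 2)).card : ℝ) * S.card) ≤ D * c * (((P (1 / 2)).card : ℝ) * S.card) :=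
      mul_le_mul_of_nonneg_right hDc h2
    have h4 : 5 ^ d * (((P (1 / 2)).card : ℝ) * S.card) ≤ 4 * 5 ^ d * (((P (1 / 2)).card : ℝ) * S.card) := by
      have : (0 : ℝ) ≤ 5 ^ d * (((P (1 / 2)).card : ℝ) * S.card) := by positivity
      linarith
    have h6 : c * p ≤ c * (D * (P (1 / 2)).card * S.card) := by linarith
    exact le_of_mul_le_mul_left h6 hc
  · have h2 : (0 : ℝ) ≤ ((P 1).card : ℝ) * S.card := by positivity
    have h3 : 4 * 5 ^ d * (((P 1).card : ℝ) * S.card) ≤ D * c * (((P 1).card : ℝ) * S.card) :=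
      mul_le_mul_of_nonneg_right hDc h2
    have h4 : 1 * (((P 1).card : ℝ) * S.card) ≤ 4 * 5 ^ d * (((P 1).card : ℝ) * S.card) := by
      refine mul_le_mul_of_nonneg_right ?_ h2
      linarith
    have h6 : c * p ≤ c * (D * (P 1).card * S.card) := by linarith
    exact le_of_mul_le_mul_left h6 hc
  · intro x hx
    have h1 := DSY_sum S (fun s => ps (s * x)) (1 / 16) (fun s hs => by
      rw [hS, DSY_mem] at hs
      exact hs x hx)
    unfold psS
    rw [le_div_iff₀ (by positivity)]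
    have h2 : (0 : ℝ) ≤ (S.card : ℝ) * (1 - 1 / 16) := by nlinarith
    have h3 := pow_le_pow_left₀ h2 h1 2
    refine le_trans ?_ h3
    have h4 : (0 : ℝ) ≤ (S.card : ℝ) ^ 2 := by positivity
    nlinarith
  · intro V hV r hr
    have hr' := hsub hr
    rw [DSY_mem] at hr'
    have h1 := DSY_sum V (fun v => ps (r * v)) (1 / 8) (fun v hv => hr' v (hV hv))
    have h2 : (0 : ℝ) ≤ (V.card : ℝ) := by positivity
    nlinarith

end Pool.Agent.OG
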